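import Mathlib

/-!
MP_fcb754_nt (Lindelof-type bound for the Barnes multiple zeta function), frozen negation S19070.
Project LB, poster helper11: definitions and statements of the pieces.

`a = (1 + θ)/2`, `w = (1, θ)`, `1 ≤ θ ≤ 2`. Then
`∑ exp (-(a + m + n θ) x) = f_θ(x) = 1 / (4 sinh (x/2) sinh (θ x/2))`, an even function, and
`h_θ(x) = f_θ(x) - 1/(θ x^2)` is bounded near `0`. On `Re s = 1` the Barnes zeta function is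
`Φ θ t = (mellin h_θ)(1 + i t) / Γ(1 + i t)`.
-/

set_option autoImplicit false

open Set MeasureTheory

namespace LB11

noncomputable def fR (θ x : ℝ) : ℝ := 1 / (4 * Real.sinh (x / 2) * Real.sinh (θ * x / 2))

noncomputable def hR (θ x : ℝ) : ℝ := fR θ x - 1 / (θ * x ^ 2)

noncomputable def f (θ : ℝ) (x : ℝ) : ℂ := ((fR θ x : ℝ) : ℂ)

noncomputable def h (θ : ℝ) (x : ℝ) : ℂ := ((hR θ x : ℝ) : ℂ)

/-- the analytic continuation of `h θ` to the right half plane -/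
noncomputable def H (θ : ℝ) (z : ℂ) : ℂ :=
  1 / (4 * Complex.sinh (z / 2) * Complex.sinh ((θ : ℂ) * z / 2)) - 1 / ((θ : ℂ) * z ^ 2)

/-- the value of the Barnes zeta function at `1 + i t` -/
noncomputable def Phi (θ t : ℝ) : ℂ :=
  mellin (h θ) (1 + (t : ℂ) * Complex.I) / Complex.Gamma (1 + (t : ℂ) * Complex.I)

/-- the strip on which everything is holomorphic -/
def Strip : Set ℂ := {z : ℂ | |z.im| < 1 ∧ -1 < z.re}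

/-! ### continuation to the whole plane -/

/-- SUM -/
def S_SUM : Prop := ∀ θ : ℝ, 0 < θ → ∀ s : ℂ, 2 < s.re →
  mellin (f θ) s / Complex.Gamma s =
    ∑' m : Fin 2 → ℕ,
      ((((1 + θ) / 2 + ∑ j, (m j : ℝ) * (![1, θ] : Fin 2 → ℝ) j : ℝ) : ℂ) ^ (-s))

/-- ENT: a Mellin transform divided by Gamma is entire when all derivatives decay. -/
def S_ENT : Prop := ∀ (g : ℕ → ℝ → ℂ) (c : ℝ), 0 < c →
  (∀ (N : ℕ) (x : ℝ), 0 < x → HasDerivAt (g N) (g (N + 1) x) x) →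
  (∀ N : ℕ, ∃ C : ℝ, ∀ x : ℝ, 0 < x → ‖g N x‖ ≤ C * Real.exp (-(c * x))) →
  ∃ L : ℂ → ℂ, Differentiable ℂ L ∧ ∀ u : ℂ, 0 < u.re → L u = mellin (g 0) u / Complex.Gamma u

/-- SEQ: the sequence of derivatives of a holomorphic function on the strip (Cauchy estimates). -/
def S_SEQ : Prop := ∀ (G : ℂ → ℂ) (c C : ℝ), 0 < c → DifferentiableOn ℂ G Strip →
  (∀ z ∈ Strip, ‖G z‖ ≤ C * Real.exp (-(c * z.re))) →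
  ∃ g : ℕ → ℝ → ℂ, (∀ x : ℝ, 0 < x → g 0 x = G (x : ℂ)) ∧
    (∀ (N : ℕ) (x : ℝ), 0 < x → HasDerivAt (g N) (g (N + 1) x) x) ∧
    (∀ N : ℕ, ∃ C' : ℝ, ∀ x : ℝ, 0 < x → ‖g N x‖ ≤ C' * Real.exp (-(c * x)))

/-- CHI: `x^2 f_θ(x)` extends to a holomorphic function on the strip, exponentially decaying. -/
def S_CHI : Prop := ∀ θ ∈ Icc (1 : ℝ) 2, ∃ (G : ℂ → ℂ) (c C : ℝ), 0 < c ∧
  DifferentiableOn ℂ G Strip ∧ (∀ z ∈ Strip, ‖G z‖ ≤ C * Real.exp (-(c * z.re))) ∧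
  ∀ x : ℝ, 0 < x → G (x : ℂ) = (x : ℂ) ^ 2 * f θ x

/-- EXT (from ENT, SEQ, CHI) -/
def S_EXT : Prop := ∀ θ ∈ Icc (1 : ℝ) 2, ∃ L : ℂ → ℂ, Differentiable ℂ L ∧
  ∀ u : ℂ, 0 < u.re → L u = mellin (f θ) (u + 2) / Complex.Gamma u

/-- HB: elementary bounds for `f` and `h` -/
def S_HB : Prop := ∃ C : ℝ, 0 < C ∧ ∀ θ ∈ Icc (1 : ℝ) 2, ∀ x : ℝ, 0 < x →
  |hR θ x| ≤ C ∧ |hR θ x| ≤ C / x ^ 2 ∧ (1 ≤ x → |fR θ x| ≤ C * Real.exp (-x))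

/-- HALF (from HB): continuation to the right half plane. -/
def S_HALF : Prop := ∀ θ ∈ Icc (1 : ℝ) 2, ∃ E : ℂ → ℂ, DifferentiableOn ℂ E {s : ℂ | 0 < s.re} ∧
  (∀ s : ℂ, 2 < s.re → E s = (s - 2) * mellin (f θ) s) ∧
  (∀ s : ℂ, 0 < s.re → s.re < 2 → E s = (s - 2) * mellin (h θ) s)

/-- FCONT (from EXT and HALF): the Barnes zeta function on the whole plane. -/
def S_FCONT : Prop := ∀ θ ∈ Icc (1 : ℝ) 2, ∃ F : ℂ → ℂ,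
  DifferentiableOn ℂ F {s : ℂ | s ≠ 1 ∧ s ≠ 2} ∧
  (∀ s : ℂ, 2 < s.re → F s = mellin (f θ) s / Complex.Gamma s) ∧
  (∀ t : ℝ, t ≠ 0 → F (1 + (t : ℂ) * Complex.I) = Phi θ t)

/-! ### growth for rational `θ` -/

/-- MEL (from HB): the Mellin transform of `h θ` in the strip `0 < Re s < 2` -/
def S_MEL : Prop := ∀ θ ∈ Icc (1 : ℝ) 2,
  (∀ s : ℂ, 0 < s.re → s.re < 2 →
    MellinConvergent (h θ) s ∧ DifferentiableAt ℂ (mellin (h θ)) s) ∧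
  (∀ t : ℝ, ‖mellin (h θ) (1 + ((-t : ℝ) : ℂ) * Complex.I)‖ =
    ‖mellin (h θ) (1 + (t : ℂ) * Complex.I)‖) ∧
  ∃ B : ℝ, ∀ t : ℝ, ‖mellin (h θ) (1 + (t : ℂ) * Complex.I)‖ ≤ B

/-- CONT (from HB): continuity in `θ` -/
def S_CONT : Prop := ∀ t : ℝ, ContinuousOn (fun θ : ℝ => Phi θ t) (Icc (1 : ℝ) 2)

/-- GAM -/
def S_GAM : Prop := ∃ C : ℝ, 0 < C ∧ ∀ t : ℝ, 1 ≤ |t| →
  ‖Complex.Gamma (1 + (t : ℂ) * Complex.I)‖ ≤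
    C * |t| ^ (1 / 2 : ℝ) * Real.exp (-(Real.pi * |t| / 2))

/-- the bound for `M` used below -/
def Bd (M : ℝ → ℂ) (K : ℝ) : Prop := ∀ t : ℝ,
  ‖M t‖ ≤ K * (1 + |t|) ^ (3 / 4 : ℝ) * Real.exp (-(Real.pi * |t| / 2))

/-- ANA: the inverse Mellin integral is holomorphic in the right half plane -/
def S_ANA : Prop := ∀ (M : ℝ → ℂ) (K : ℝ), Continuous M → Bd M K →
  DifferentiableOn ℂ (fun z : ℂ => ∫ t : ℝ, z ^ (-(1 + (t : ℂ) * Complex.I)) * M t)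
    {z : ℂ | 0 < z.re}

/-- INV (from ANA): Mellin inversion in the right half plane -/
def S_INV : Prop := ∀ (G : ℂ → ℂ) (K : ℝ), DifferentiableOn ℂ G {z : ℂ | 0 < z.re} →
  MellinConvergent (fun x : ℝ => G (x : ℂ)) 1 →
  Continuous (fun t : ℝ => mellin (fun x : ℝ => G (x : ℂ)) (1 + (t : ℂ) * Complex.I)) →
  Bd (fun t : ℝ => mellin (fun x : ℝ => G (x : ℂ)) (1 + (t : ℂ) * Complex.I)) K →
  ∀ z : ℂ, 0 < z.re → G z = (1 / (2 * Real.pi) : ℝ) *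
    ∫ t : ℝ, z ^ (-(1 + (t : ℂ) * Complex.I)) *
      mellin (fun x : ℝ => G (x : ℂ)) (1 + (t : ℂ) * Complex.I)

/-- BD: the inverse Mellin integral near the imaginary axis -/
def S_BD : Prop := ∀ (M : ℝ → ℂ) (K : ℝ), Continuous M → Bd M K → ∃ K' : ℝ,
  ∀ δ : ℝ, 0 < δ → δ ≤ 1 → ∀ ρ : ℝ, 0 < ρ →
    ‖∫ t : ℝ, ((ρ : ℂ) * Complex.exp (((Real.pi / 2 - δ : ℝ) : ℂ) * Complex.I)) ^
      (-(1 + (t : ℂ) * Complex.I)) * M t‖ ≤ K' / ρ * δ ^ (-(7 / 4) : ℝ)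

/-- POLE: for `θ = p/q` the function `H θ` has a double pole at `2 π i q` -/
def S_POLE : Prop := ∀ p q : ℕ, 0 < p → 0 < q → ∃ c δ₀ : ℝ, 0 < c ∧ 0 < δ₀ ∧
  ∀ δ : ℝ, 0 < δ → δ < δ₀ →
    c * δ ^ (-2 : ℝ) ≤ ‖H ((p : ℝ) / q) (((2 * Real.pi * q : ℝ) : ℂ) *
      Complex.exp (((Real.pi / 2 - δ : ℝ) : ℂ) * Complex.I))‖

/-- HOL -/
def S_HOL : Prop := ∀ θ : ℝ, 0 < θ → DifferentiableOn ℂ (H θ) {z : ℂ | 0 < z.re} ∧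
  ∀ x : ℝ, 0 < x → H θ (x : ℂ) = h θ x

/-- RAT (from GAM, INV, BD, POLE, HOL, MEL) -/
def S_RAT : Prop := ∀ p q : ℕ, 0 < q → (1 : ℝ) ≤ (p : ℝ) / q → (p : ℝ) / q ≤ 2 →
  ∀ N : ℝ, ∃ t : ℝ, 1 ≤ t ∧ N * t ^ (1 / 4 : ℝ) < ‖Phi ((p : ℝ) / q) t‖

/-- BAIRE (from CONT and RAT) -/
def S_BAIRE : Prop := ∃ θ : ℝ, 1 < θ ∧ θ < 2 ∧ Irrational θ ∧
  ∀ N : ℝ, ∃ t : ℝ, 1 ≤ t ∧ N * t ^ (1 / 4 : ℝ) < ‖Phi θ t‖

/-- RANK -/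
def S_RANK : Prop := ∀ θ : ℝ, Irrational θ →
  Module.finrank ℚ (Submodule.span ℚ (Set.range (![1, θ] : Fin 2 → ℝ))) = 2

/-- FIN: the frozen negation (from SUM, FCONT, BAIRE, RANK) -/
def S_FIN : Prop := ¬ (∀ (r : ℕ), 1 ≤ r → ∀ (a : ℝ), 0 < a → ∀ (w : Fin r → ℝ), (∀ j, 0 < w j) →
      ∀ F : ℂ → ℂ,
        DifferentiableOn ℂ F {s : ℂ | ∀ k : ℕ, 1 ≤ k → k ≤ r → s ≠ (k : ℂ)} →
        (∀ s : ℂ, (r : ℝ) < s.re →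
          F s = ∑' m : Fin r → ℕ, (((a + ∑ j, (m j : ℝ) * w j : ℝ) : ℂ) ^ (-s))) →
        ∀ ε : ℝ, 0 < ε → ∀ σ₁ : ℝ, ∃ C : ℝ, ∀ σ t : ℝ,
          (r : ℝ) - (Module.finrank ℚ (Submodule.span ℚ (Set.range w)) : ℝ) / 2 ≤ σ →
          σ ≤ σ₁ → 1 ≤ t →
          ‖F ((σ : ℂ) + (t : ℂ) * Complex.I)‖ ≤ C * t ^ ε)

end LB11
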